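import Pool.Agent.Helper25.SCurve.NoS

/-! For small `ε₁, ε₂ > 0` no max-min continuum has the S-property. -/

namespace Pool.Agent.Results.MP_a6fbd6_an.MaxMinNotS

open Pool.Agent.Helper25.SCurve

/-- For all `k₁, k₂ > 0` there is `ε₀ > 0` such that for all `ε₁, ε₂ ∈ (0, ε₀)` no max-min
continuum has the S-property in the field `φ`. -/
theorem result (k₁ k₂ : ℝ) (hk₁ : 0 < k₁) (hk₂ : 0 < k₂) :
    ∃ ε₀ : ℝ, 0 < ε₀ ∧ ∀ ε₁ ε₂ : ℝ, 0 < ε₁ → ε₁ < ε₀ → 0 < ε₂ → ε₂ < ε₀ →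
      ∀ Γ : Set ℂ, IsMaxMin k₁ k₂ ε₁ ε₂ Γ → ¬ HasSProperty k₁ k₂ Γ :=
  maxmin_not_sProperty hk₁ hk₂

end Pool.Agent.Results.MP_a6fbd6_an.MaxMinNotS
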