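import Pool.Agent.Helper25.SCurve.Segment
import Pool.Agent.Helper25.SCurve.MaxMinExist

/-! For small `ε₁, ε₂ > 0` a max-min continuum exists and every max-min continuum contains a
nondegenerate segment of the imaginary axis. -/

namespace Pool.Agent.Results.MP_a6fbd6_an.MaxMinSegment

open Pool.Agent.Helper25.SCurve

/-- For all `k₁, k₂ > 0` there is `ε₀ > 0` such that for all `ε₁, ε₂ ∈ (0, ε₀)` there is a max-min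
continuum, and every max-min continuum `Γ` contains a nondegenerate segment `{y i : a ≤ y ≤ b}` of
the imaginary axis. -/
theorem result (k₁ k₂ : ℝ) (hk₁ : 0 < k₁) (hk₂ : 0 < k₂) :
    ∃ ε₀ : ℝ, 0 < ε₀ ∧ ∀ ε₁ ε₂ : ℝ, 0 < ε₁ → ε₁ < ε₀ → 0 < ε₂ → ε₂ < ε₀ →
      (∃ Γ : Set ℂ, IsMaxMin k₁ k₂ ε₁ ε₂ Γ) ∧
      ∀ Γ : Set ℂ, IsMaxMin k₁ k₂ ε₁ ε₂ Γ →
        ∃ a b : ℝ, a < b ∧ ∀ y : ℝ, a ≤ y → y ≤ b → (y : ℂ) * Complex.I ∈ Γ := by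
  obtain ⟨ε₀, h0, h⟩ := maxmin_segment hk₁ hk₂
  refine ⟨ε₀, h0, fun ε₁ ε₂ a1 a2 a3 a4 => ⟨exists_maxMin k₁ k₂ ε₁ ε₂ hk₁.le hk₂.le,
    fun Γ hΓ => ?_⟩⟩
  obtain ⟨a, b, hab, hy⟩ := h ε₁ ε₂ a1 a2 a3 a4 Γ hΓ
  refine ⟨a, b, hab, fun y h1 h2 => ?_⟩
  have h3 := hy y ⟨h1, h2⟩
  have h4 : (y : ℂ) * Complex.I = ⟨0, y⟩ := by
    apply Complex.ext <;> simp
  rwa [h4]

end Pool.Agent.Results.MP_a6fbd6_an.MaxMinSegment
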