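import Pool.Agent.Helper25.SCurve.CritMain

/-! For small `ε₁, ε₂ > 0` there is no critical measure of `E_φ` relative to `z₁` and `z₂`. -/

namespace Pool.Agent.Results.MP_a6fbd6_an.NoCriticalMeasure

open MeasureTheory Pool.Agent.Helper25.SCurve

/-- For all `k₁, k₂ > 0` there is `ε₀ > 0` such that for all `ε₁, ε₂ ∈ (0, ε₀)` no probability
measure of bounded support and finite energy is a critical point of `E_φ` for the smooth
deformations of the plane fixing `z₁ = -ε₁ + i` and `z₂ = ε₂ - i`. -/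
theorem result (k₁ k₂ : ℝ) (hk₁ : 0 < k₁) (hk₂ : 0 < k₂) :
    ∃ ε₀ : ℝ, 0 < ε₀ ∧ ∀ ε₁ ε₂ : ℝ, 0 < ε₁ → ε₁ < ε₀ → 0 < ε₂ → ε₂ < ε₀ →
      ∀ μ : Measure ℂ,
        ¬ IsCriticalMeasure k₁ k₂ (-(ε₁ : ℂ) + Complex.I) ((ε₂ : ℂ) - Complex.I) μ :=
  no_critical hk₁ hk₂

end Pool.Agent.Results.MP_a6fbd6_an.NoCriticalMeasure
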