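import Pool.Agent.Helper25.SCurve.Exists

/-! For all positive `k₁, k₂` and all `ε₁, ε₂ ∈ (0, M]` there is a continuum containing
`z₁ = -ε₁ + i` and `z₂ = ε₂ - i` with the S-property in the piecewise linear field `φ`, inside a
disc that depends only on `k₁, k₂, M`. -/

namespace Pool.Agent.Results.MP_a6fbd6_an.SCurveExists

open Pool.Agent.Helper25.SCurve

/-- For all `k₁, k₂ > 0` and every `M` there is a radius `ρ` such that for all `ε₁, ε₂ ∈ (0, M]`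
there is a continuum `Γ` in the disc `|z| ≤ ρ` containing the points `z₁ = -ε₁ + i` and
`z₂ = ε₂ - i` that has the S-property in the field `φ`. -/
theorem result (k₁ k₂ M : ℝ) (hk₁ : 0 < k₁) (hk₂ : 0 < k₂) :
    ∃ ρ : ℝ, ∀ ε₁ ε₂ : ℝ, 0 < ε₁ → ε₁ ≤ M → 0 < ε₂ → ε₂ ≤ M →
      ∃ Γ : Set ℂ, IsJoining ε₁ ε₂ Γ ∧ (∀ z ∈ Γ, ‖z‖ ≤ ρ) ∧ HasSProperty k₁ k₂ Γ :=
  exists_sCurve_bounded hk₁ hk₂ M

end Pool.Agent.Results.MP_a6fbd6_an.SCurveExists
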